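import Mathlib

/-!
# Project PX, task SUMS: numeric core (helper797)
-/

set_option autoImplicit false

namespace Pool.Agent.W797.PX.Sums

/-- ratio of powers -/
theorem pow_ratio {j : ℝ} (hj : 1 ≤ j) {a b : ℕ} (h : a + 2 ≤ b) : j ^ a / j ^ b ≤ 1 / j ^ 2 := by
  have h0 : 0 < j := by linarith
  rw [div_le_div_iff₀ (by positivity) (by positivity), one_mul, ← pow_add]
  exact pow_le_pow_right₀ hj h

theorem c1 (q Q : ℕ) (hqQ : q ≤ Q) (hq : 8 ≤ q) (C j j₁ N v w : ℝ) (hC : 1 ≤ C) (hj₁ : 1 ≤ j₁) (hj : j₁ ≤ j)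
    (hN0 : 0 ≤ N) (hN : N ≤ C * j ^ (2 * q - 1)) (hv : 1 ≤ v) (hvw : v ≤ w) (hw : w ≤ 2 * v)
    (hd : w - v ≤ C * v / j) (hv2 : v ^ 2 ≤ 2 * j / j₁) :
    N * w ^ 2 * (w - v) ^ (4 * Q + 4) ≤ (4 * C ^ (4 * Q + 5) * 2 ^ (2 * Q + 3)) / j ^ 2 := by
  have hj1 : 1 ≤ j := le_trans hj₁ hj
  have hj0 : 0 < j := by linarith
  have hd0 : 0 ≤ w - v := by linarith
  have hw0 : 0 ≤ w := by linarith
  have hv3 : v ^ 2 ≤ 2 * j := le_trans hv2 (div_le_self (by linarith) hj₁)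
  obtain ⟨n, hn⟩ : ∃ n, 2 * q - 1 = n ∧ n + 1 = 2 * q := ⟨2 * q - 1, rfl, by omega⟩
  rw [hn.1] at hN
  have hn1 := hn.2
  calc N * w ^ 2 * (w - v) ^ (4 * Q + 4)
      ≤ (C * j ^ n) * (2 * v) ^ 2 * (C * v / j) ^ (4 * Q + 4) := by gcongr
    _ = (4 * C ^ (4 * Q + 5)) * (j ^ n * (v ^ 2) ^ (2 * Q + 3)) / j ^ (4 * Q + 4) := by
        rw [div_pow, mul_pow C v (4 * Q + 4)]
        ring
    _ ≤ (4 * C ^ (4 * Q + 5)) * (j ^ n * (2 * j) ^ (2 * Q + 3)) / j ^ (4 * Q + 4) := by gcongr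
    _ = (4 * C ^ (4 * Q + 5) * 2 ^ (2 * Q + 3)) * (j ^ (n + (2 * Q + 3)) / j ^ (4 * Q + 4)) := by
        rw [mul_pow, pow_add j n]
        ring
    _ ≤ (4 * C ^ (4 * Q + 5) * 2 ^ (2 * Q + 3)) * (1 / j ^ 2) := by
        have := pow_ratio hj1 (a := n + (2 * Q + 3)) (b := 4 * Q + 4) (by omega)
        gcongr
    _ = _ := by ring

theorem c2 (q Q : ℕ) (hqQ : q ≤ Q) (hq : 8 ≤ q) (C j j₁ N v w : ℝ) (hC : 1 ≤ C) (hj₁ : 1 ≤ j₁) (hj : j₁ ≤ j)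
    (hN0 : 0 ≤ N) (hN : N ≤ C * j ^ (2 * q - 1)) (hv : 1 ≤ v) (hvw : v ≤ w) (hw : w ≤ 2 * v)
    (hd : w - v ≤ C * v / j) :
    N * w ^ 2 * (w - v) ^ (2 * Q + 1) / v ^ (3 * Q + 2) ≤ (4 * C ^ (2 * Q + 2)) / j ^ 2 := by
  have hj1 : 1 ≤ j := le_trans hj₁ hj
  have hj0 : 0 < j := by linarith
  have hd0 : 0 ≤ w - v := by linarith
  have hw0 : 0 ≤ w := by linarith
  have hv0 : 0 < v := by linarith
  obtain ⟨n, hn⟩ : ∃ n, 2 * q - 1 = n ∧ n + 1 = 2 * q := ⟨2 * q - 1, rfl, by omega⟩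
  rw [hn.1] at hN
  have hn1 := hn.2
  calc N * w ^ 2 * (w - v) ^ (2 * Q + 1) / v ^ (3 * Q + 2)
      ≤ (C * j ^ n) * (2 * v) ^ 2 * (C * v / j) ^ (2 * Q + 1) / v ^ (3 * Q + 2) := by gcongr
    _ = (4 * C ^ (2 * Q + 2)) * (j ^ n / j ^ (2 * Q + 1)) * (v ^ (2 * Q + 3) / v ^ (3 * Q + 2)) := by
        rw [div_pow, mul_pow C v (2 * Q + 1)]
        ring
    _ ≤ (4 * C ^ (2 * Q + 2)) * (1 / j ^ 2) * 1 := by
        have h1 := pow_ratio hj1 (a := n) (b := 2 * Q + 1) (by omega)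
        have h2 : v ^ (2 * Q + 3) / v ^ (3 * Q + 2) ≤ 1 := by
          rw [div_le_one (by positivity)]
          exact pow_le_pow_right₀ hv (by omega)
        gcongr
    _ = _ := by ring

theorem c3 (q Q : ℕ) (hqQ : q ≤ Q) (hq : 8 ≤ q) (C j j₁ κ v w : ℝ) (hC : 1 ≤ C) (hj₁ : 1 ≤ j₁) (hj : j₁ ≤ j)
    (hκ : 0 ≤ κ) (hv : 1 ≤ v) (hvw : v ≤ w) (hw : w ≤ 2 * v)
    (hd : w - v ≤ C * v / j) (hvQ : v ^ (2 * Q) ≤ (2 * j / j₁) ^ q) :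
    κ * w ^ (3 * Q + 3) * (w - v) ^ (4 * Q + 4) ≤
      (2 ^ (3 * Q + 3) * C ^ (4 * Q + 4) * 2 ^ (4 * q)) * (κ / j₁) / j ^ 2 := by
  have hj1 : 1 ≤ j := le_trans hj₁ hj
  have hj0 : 0 < j := by linarith
  have hj10 : 0 < j₁ := by linarith
  have hd0 : 0 ≤ w - v := by linarith
  have hw0 : 0 ≤ w := by linarith
  have hv0 : 0 < v := by linarith
  calc κ * w ^ (3 * Q + 3) * (w - v) ^ (4 * Q + 4)
      ≤ κ * (2 * v) ^ (3 * Q + 3) * (C * v / j) ^ (4 * Q + 4) := by gcongr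
    _ = κ * (2 ^ (3 * Q + 3) * C ^ (4 * Q + 4)) * v ^ (7 * Q + 7) / j ^ (4 * Q + 4) := by
        rw [div_pow, mul_pow C v (4 * Q + 4), mul_pow 2 v]
        ring
    _ ≤ κ * (2 ^ (3 * Q + 3) * C ^ (4 * Q + 4)) * v ^ (8 * Q) / j ^ (4 * Q + 4) := by
        gcongr
        omega
    _ = κ * (2 ^ (3 * Q + 3) * C ^ (4 * Q + 4)) * (v ^ (2 * Q)) ^ 4 / j ^ (4 * Q + 4) := by
        rw [← pow_mul]
        congr 3
        ring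
    _ ≤ κ * (2 ^ (3 * Q + 3) * C ^ (4 * Q + 4)) * ((2 * j / j₁) ^ q) ^ 4 / j ^ (4 * Q + 4) := by gcongr
    _ = (2 ^ (3 * Q + 3) * C ^ (4 * Q + 4) * 2 ^ (4 * q)) * κ * (1 / j₁ ^ (4 * q)) *
          (j ^ (4 * q) / j ^ (4 * Q + 4)) := by
        rw [← pow_mul, div_pow, mul_pow 2 j, mul_comm q 4]
        ring
    _ ≤ (2 ^ (3 * Q + 3) * C ^ (4 * Q + 4) * 2 ^ (4 * q)) * κ * (1 / j₁) * (1 / j ^ 2) := by
        have h1 := pow_ratio hj1 (a := 4 * q) (b := 4 * Q + 4) (by omega)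
        have h2 : 1 / j₁ ^ (4 * q) ≤ 1 / j₁ := by
          apply one_div_le_one_div_of_le hj10
          calc j₁ = j₁ ^ 1 := (pow_one _).symm
            _ ≤ j₁ ^ (4 * q) := pow_le_pow_right₀ hj₁ (by omega)
        gcongr
    _ = _ := by ring

theorem c4 (q Q : ℕ) (hqQ : q ≤ Q) (hq : 8 ≤ q) (C j j₁ κ v w : ℝ) (hC : 1 ≤ C) (hj₁ : 1 ≤ j₁) (hj : j₁ ≤ j)
    (hκ : 0 ≤ κ) (hv : 1 ≤ v) (hvw : v ≤ w) (hw : w ≤ 2 * v)
    (hd : w - v ≤ C * v / j) (hv2 : v ^ 2 ≤ 2 * j / j₁) (hvQ : v ^ (2 * Q) ≤ (2 * j / j₁) ^ q) :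
    κ * w ^ (3 * Q + 3) * (w - v) ^ (2 * Q + 1) / v ^ (3 * Q + 2) ≤
      (2 ^ (3 * Q + 3) * C ^ (2 * Q + 1) * 2 ^ (q + 1)) * (κ / j₁) / j ^ 2 := by
  have hj1 : 1 ≤ j := le_trans hj₁ hj
  have hj0 : 0 < j := by linarith
  have hj10 : 0 < j₁ := by linarith
  have hd0 : 0 ≤ w - v := by linarith
  have hw0 : 0 ≤ w := by linarith
  have hv0 : 0 < v := by linarith
  calc κ * w ^ (3 * Q + 3) * (w - v) ^ (2 * Q + 1) / v ^ (3 * Q + 2)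
      ≤ κ * (2 * v) ^ (3 * Q + 3) * (C * v / j) ^ (2 * Q + 1) / v ^ (3 * Q + 2) := by gcongr
    _ = κ * (2 ^ (3 * Q + 3) * C ^ (2 * Q + 1)) * (v ^ (2 * Q) * v ^ 2) / j ^ (2 * Q + 1) := by
        rw [div_pow, mul_pow C v, mul_pow 2 v]
        field_simp
        ring
    _ ≤ κ * (2 ^ (3 * Q + 3) * C ^ (2 * Q + 1)) * ((2 * j / j₁) ^ q * (2 * j / j₁)) / j ^ (2 * Q + 1) := by
        gcongr
    _ = (2 ^ (3 * Q + 3) * C ^ (2 * Q + 1) * 2 ^ (q + 1)) * κ * (1 / j₁ ^ (q + 1)) *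
          (j ^ (q + 1) / j ^ (2 * Q + 1)) := by
        rw [← pow_succ, div_pow, mul_pow 2 j]
        ring
    _ ≤ (2 ^ (3 * Q + 3) * C ^ (2 * Q + 1) * 2 ^ (q + 1)) * κ * (1 / j₁) * (1 / j ^ 2) := by
        have h1 := pow_ratio hj1 (a := q + 1) (b := 2 * Q + 1) (by omega)
        have h2 : 1 / j₁ ^ (q + 1) ≤ 1 / j₁ := by
          apply one_div_le_one_div_of_le hj10
          calc j₁ = j₁ ^ 1 := (pow_one _).symm
            _ ≤ j₁ ^ (q + 1) := pow_le_pow_right₀ hj₁ (by omega)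
        gcongr
    _ = _ := by ring

/-- all the terms -/
theorem core (q Q : ℕ) (hqQ : q ≤ Q) (hq : 8 ≤ q) (C : ℝ) (hC : 1 ≤ C) : ∃ K : ℝ, 1 ≤ K ∧
    ∀ j j₁ κ N v w : ℝ, 1 ≤ j₁ → j₁ ≤ j → 0 ≤ κ → 0 ≤ N → N ≤ C * j ^ (2 * q - 1) → 1 ≤ v → v ≤ w → w ≤ 2 * v →
      w - v ≤ C * v / j → v ^ 2 ≤ 2 * j / j₁ → v ^ (2 * Q) ≤ (2 * j / j₁) ^ q →
      (2 * N * w ^ 2 + 3 * κ * w ^ (3 * Q + 3)) * (w - v) ^ (4 * Q + 4) ≤ K * (1 + κ / j₁) / j ^ 2 ∧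
      (2 * N * w ^ 2 + 3 * κ * w ^ (3 * Q + 3)) * (w - v) ^ (2 * Q + 1) / v ^ (3 * Q + 2) ≤
        K * (1 + κ / j₁) / j ^ 2 ∧
      N * w ^ 2 * (w - v) ^ (4 * Q + 4) ≤ K * (1 + κ / j₁) / j ^ 2 ∧
      N * w ^ 2 * (w - v) ^ (2 * Q + 1) / v ^ (3 * Q + 2) ≤ K * (1 + κ / j₁) / j ^ 2 := by
  set K1 : ℝ := 4 * C ^ (4 * Q + 5) * 2 ^ (2 * Q + 3) with hK1
  set K2 : ℝ := 4 * C ^ (2 * Q + 2) with hK2
  set K3 : ℝ := 2 ^ (3 * Q + 3) * C ^ (4 * Q + 4) * 2 ^ (4 * q) with hK3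
  set K4 : ℝ := 2 ^ (3 * Q + 3) * C ^ (2 * Q + 1) * 2 ^ (q + 1) with hK4
  have h1 : 0 ≤ K1 := by positivity
  have h2 : 0 ≤ K2 := by positivity
  have h3 : 0 ≤ K3 := by positivity
  have h4 : 0 ≤ K4 := by positivity
  refine ⟨1 + 3 * (K1 + K2 + K3 + K4), by linarith, ?_⟩
  intro j j₁ κ N v w hj₁ hj hκ hN0 hN hv hvw hw hd hv2 hvQ
  have hj1 : 1 ≤ j := le_trans hj₁ hj
  have hj0 : 0 < j := by linarith
  have hj10 : 0 < j₁ := by linarith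
  have hr : 0 ≤ κ / j₁ := by positivity
  have e1 := c1 q Q hqQ hq C j j₁ N v w hC hj₁ hj hN0 hN hv hvw hw hd hv2
  have e2 := c2 q Q hqQ hq C j j₁ N v w hC hj₁ hj hN0 hN hv hvw hw hd
  have e3 := c3 q Q hqQ hq C j j₁ κ v w hC hj₁ hj hκ hv hvw hw hd hvQ
  have e4 := c4 q Q hqQ hq C j j₁ κ v w hC hj₁ hj hκ hv hvw hw hd hv2 hvQ
  rw [← hK1] at e1
  rw [← hK2] at e2
  rw [← hK3] at e3
  rw [← hK4] at e4
  have key : ∀ A B : ℝ, 0 ≤ A → 0 ≤ B → A ≤ 3 * (K1 + K2 + K3 + K4) → B ≤ 3 * (K1 + K2 + K3 + K4) →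
      A / j ^ 2 + B * (κ / j₁) / j ^ 2 ≤ (1 + 3 * (K1 + K2 + K3 + K4)) * (1 + κ / j₁) / j ^ 2 := by
    intro A B hA hB hA2 hB2
    rw [← add_div]
    gcongr
    nlinarith
  refine ⟨?_, ?_, ?_, ?_⟩
  · have := key (2 * K1) (3 * K3) (by positivity) (by positivity) (by linarith) (by linarith)
    calc _ = 2 * (N * w ^ 2 * (w - v) ^ (4 * Q + 4)) + 3 * (κ * w ^ (3 * Q + 3) * (w - v) ^ (4 * Q + 4)) := by ring
      _ ≤ 2 * (K1 / j ^ 2) + 3 * (K3 * (κ / j₁) / j ^ 2) := by gcongr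
      _ = 2 * K1 / j ^ 2 + 3 * K3 * (κ / j₁) / j ^ 2 := by ring
      _ ≤ _ := this
  · have := key (2 * K2) (3 * K4) (by positivity) (by positivity) (by linarith) (by linarith)
    calc _ = 2 * (N * w ^ 2 * (w - v) ^ (2 * Q + 1) / v ^ (3 * Q + 2)) +
          3 * (κ * w ^ (3 * Q + 3) * (w - v) ^ (2 * Q + 1) / v ^ (3 * Q + 2)) := by ring
      _ ≤ 2 * (K2 / j ^ 2) + 3 * (K4 * (κ / j₁) / j ^ 2) := by gcongr
      _ = 2 * K2 / j ^ 2 + 3 * K4 * (κ / j₁) / j ^ 2 := by ring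
      _ ≤ _ := this
  · have := key K1 0 (by positivity) le_rfl (by linarith) (by linarith)
    calc _ ≤ K1 / j ^ 2 := e1
      _ = K1 / j ^ 2 + 0 * (κ / j₁) / j ^ 2 := by ring
      _ ≤ _ := this
  · have := key K2 0 (by positivity) le_rfl (by linarith) (by linarith)
    calc _ ≤ K2 / j ^ 2 := e2
      _ = K2 / j ^ 2 + 0 * (κ / j₁) / j ^ 2 := by ring
      _ ≤ _ := this

/-- sum of inverse squares with a shift -/
theorem sum_inv' (n : ℕ) : ∑ i ∈ Finset.range (n + 1), (1 : ℝ) / ((i : ℝ) + 1) ^ 2 ≤ 2 - 1 / ((n : ℝ) + 1) := by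
  induction n with
  | zero => norm_num
  | succ n ih =>
    rw [Finset.sum_range_succ]
    have h : (1 : ℝ) / (((n + 1 : ℕ) : ℝ) + 1) ^ 2 ≤ 1 / ((n : ℝ) + 1) - 1 / (((n + 1 : ℕ) : ℝ) + 1) := by
      have hn : (0 : ℝ) ≤ n := Nat.cast_nonneg n
      push_cast
      rw [div_sub_div _ _ (by positivity) (by positivity), div_le_div_iff₀ (by positivity) (by positivity)]
      nlinarith
    linarith

theorem sum_inv (n : ℕ) : ∑ i ∈ Finset.range n, (1 : ℝ) / ((i : ℝ) + 1) ^ 2 ≤ 2 := by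
  cases n with
  | zero => simp
  | succ n =>
    have := sum_inv' n
    have h : (0 : ℝ) ≤ 1 / ((n : ℝ) + 1) := by positivity
    linarith

/-- summation of a sequence dominated by inverse squares -/
theorem sum_bd (f : ℕ → ℝ) (M : ℝ) (hM : 0 ≤ M) (h0 : ∀ i, 0 ≤ f i) (h : ∀ i : ℕ, f i ≤ M / ((i : ℝ) + 1) ^ 2) :
    Summable f ∧ ∑' i, f i ≤ 2 * M := by
  have hs : ∀ n, ∑ i ∈ Finset.range n, f i ≤ 2 * M := by
    intro n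
    calc ∑ i ∈ Finset.range n, f i ≤ ∑ i ∈ Finset.range n, M * ((1 : ℝ) / ((i : ℝ) + 1) ^ 2) := by
          apply Finset.sum_le_sum
          intro i _
          have := h i
          rwa [mul_one_div]
      _ = M * ∑ i ∈ Finset.range n, (1 : ℝ) / ((i : ℝ) + 1) ^ 2 := by rw [Finset.mul_sum]
      _ ≤ M * 2 := by
          have := sum_inv n
          gcongr
      _ = 2 * M := by ring
  exact ⟨summable_of_sum_range_le h0 hs, Real.tsum_le_of_sum_range_le h0 hs⟩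

end Pool.Agent.W797.PX.Sums
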