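import Mathlib
import Pool.Agent.W406.PX.Stmts
import Pool.Agent.W797.PX.Core

/-!
# Project PX, task SUMS (helper797)
-/

set_option autoImplicit false

open Finset

namespace Pool.Agent.W797.PX.Sums

open Pool.Agent.H96R3.BC (vv)
open Pool.Agent.W406.PX

set_option maxHeartbeats 4000000 in
theorem task : TaskSums := by
  intro hG
  obtain ⟨q₀, hG⟩ := hG
  refine ⟨max q₀ 8, ?_⟩
  intro q hq Q hQ m hm
  have hq1 : q₀ ≤ q := le_trans (le_max_left _ _) hq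
  have hq8 : 8 ≤ q := le_trans (le_max_right _ _) hq
  have hqQ : q ≤ Q := by rcases hQ with h | h <;> omega
  obtain ⟨C1, hC1, J1, H1⟩ := hG q hq1 Q hQ 1 le_rfl
  obtain ⟨C2, hC2, J2, H2⟩ := hG q hq1 Q hQ m hm
  set C : ℝ := max C1 C2 with hCdef
  have hC : 1 ≤ C := le_trans hC1 (le_max_left _ _)
  obtain ⟨K, hK, core⟩ := core q Q hqQ hq8 C hC
  refine ⟨max (max J1 J2) (⌈64 * K⌉₊ + 1), ?_⟩
  intro j₁ j' hj' hjj b hb
  have hJ1 : J1 ≤ j' := le_trans (le_trans (le_max_left _ _) (le_max_left _ _)) hj'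
  have hJ2 : J2 ≤ j' := le_trans (le_trans (le_max_right _ _) (le_max_left _ _)) hj'
  have hJ3 : ⌈64 * K⌉₊ + 1 ≤ j' := le_trans (le_max_right _ _) hj'
  obtain ⟨hle, ⟨hv1, -⟩, G1⟩ := H1 j₁ j' hJ1 hjj b hb
  obtain ⟨-, -, G2⟩ := H2 j₁ j' hJ2 hjj b hb
  have hK64 : 64 * K ≤ (j' : ℝ) := by
    have h1 : 64 * K ≤ (⌈64 * K⌉₊ : ℝ) := Nat.le_ceil _
    have h2 : ((⌈64 * K⌉₊ : ℕ) : ℝ) + 1 ≤ (j' : ℝ) := by exact_mod_cast hJ3
    linarith
  have hj'1 : (1 : ℝ) ≤ j' := by linarith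
  have hj'0 : 1 ≤ j' := by omega
  have hj₁0 : 1 ≤ j₁ := le_trans hj'0 hle
  have hj₁1 : (1 : ℝ) ≤ j₁ := by exact_mod_cast hj₁0
  have hlej : (j' : ℝ) ≤ j₁ := by exact_mod_cast hle
  set κ : ℝ := kp Q j' with hκdef
  have hκ : (j' : ℝ) ≤ κ := by
    rw [hκdef]
    unfold kp
    calc (j' : ℝ) = (j' : ℝ) ^ 1 := (pow_one _).symm
      _ ≤ (j' : ℝ) ^ Q := pow_le_pow_right₀ hj'1 (by omega)
  have hκ0 : 0 ≤ κ := by linarith
  -- monotonicity
  have hvge : ∀ j, j₁ ≤ j → 1 ≤ vv Q j' (b j) := by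
    intro j hj
    induction j, hj using Nat.le_induction with
    | base => exact hv1
    | succ n hn ih => exact le_trans ih (G1 n hn).2.1.le
  have hvmono : ∀ j, j₁ ≤ j → ∀ d, vv Q j' (b j) ≤ vv Q j' (b (j + d)) ∧ b j ≤ b (j + d) := by
    intro j hj d
    induction d with
    | zero => exact ⟨le_rfl, le_rfl⟩
    | succ n ih =>
      have := G1 (j + n) (by omega)
      exact ⟨le_trans ih.1 this.2.1.le, le_trans ih.2 this.1.le⟩
  have cell : ∀ k, (k = 1 ∨ k = m) → ∀ j, j₁ ≤ j →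
      (2 * ((Ioc (b j) (b (j + k))).card : ℝ) * vv Q j' (b (j + k)) ^ 2 + 3 * κ * vv Q j' (b (j + k)) ^ (3 * Q + 3)) *
        (vv Q j' (b (j + k)) - vv Q j' (b j)) ^ (4 * Q + 4) ≤ K * (1 + κ / j₁) / (j : ℝ) ^ 2 ∧
      (2 * ((Ioc (b j) (b (j + k))).card : ℝ) * vv Q j' (b (j + k)) ^ 2 + 3 * κ * vv Q j' (b (j + k)) ^ (3 * Q + 3)) *
        (vv Q j' (b (j + k)) - vv Q j' (b j)) ^ (2 * Q + 1) / vv Q j' (b j) ^ (3 * Q + 2) ≤
          K * (1 + κ / j₁) / (j : ℝ) ^ 2 ∧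
      ((Ioc (b j) (b (j + k))).card : ℝ) * vv Q j' (b (j + k)) ^ 2 *
        (vv Q j' (b (j + k)) - vv Q j' (b j)) ^ (4 * Q + 4) ≤ K * (1 + κ / j₁) / (j : ℝ) ^ 2 ∧
      ((Ioc (b j) (b (j + k))).card : ℝ) * vv Q j' (b (j + k)) ^ 2 *
        (vv Q j' (b (j + k)) - vv Q j' (b j)) ^ (2 * Q + 1) / vv Q j' (b j) ^ (3 * Q + 2) ≤
          K * (1 + κ / j₁) / (j : ℝ) ^ 2 := by
    intro k hk j hj
    have hjr : (j₁ : ℝ) ≤ j := by exact_mod_cast hj
    have hj0 : (0 : ℝ) < j := by linarith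
    have hv := hvge j hj
    have hmo := hvmono j hj k
    have hcard : ((Ioc (b j) (b (j + k))).card : ℝ) = (b (j + k) : ℝ) - b j := by
      rw [Nat.card_Ioc, Nat.cast_sub hmo.2]
    have hmain : vv Q j' (b (j + k)) - vv Q j' (b j) ≤ C * vv Q j' (b j) / j ∧
        vv Q j' (b (j + k)) ≤ 2 * vv Q j' (b j) ∧ vv Q j' (b j) ^ 2 ≤ 2 * (j : ℝ) / j₁ ∧
        vv Q j' (b j) ^ (2 * Q) ≤ (2 * (j : ℝ) / j₁) ^ q ∧
        (b (j + k) : ℝ) - b j ≤ C * (j : ℝ) ^ (2 * q - 1) := by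
      rcases hk with rfl | rfl
      · obtain ⟨-, -, h3, h4, h5, h6, h7, -, -⟩ := G1 j hj
        have hCC : C1 ≤ C := le_max_left _ _
        refine ⟨le_trans h3 (by gcongr), h4, h5, h6, le_trans h7 (by gcongr)⟩
      · obtain ⟨-, -, h3, h4, h5, h6, h7, -, -⟩ := G2 j hj
        have hCC : C2 ≤ C := le_max_right _ _
        refine ⟨le_trans h3 (by gcongr), h4, h5, h6, le_trans h7 (by gcongr)⟩
    obtain ⟨h3, h4, h5, h6, h7⟩ := hmain
    exact core j j₁ κ _ _ _ hj₁1 hjr hκ0 (Nat.cast_nonneg _) (by rw [hcard]; exact h7) hv hmo.1 h4 h3 h5 h6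
  -- the total
  set M : ℝ := K * (1 + κ / j₁) with hMdef
  have hM0 : 0 ≤ M := by positivity
  have hM : 2 * M ≤ κ / 16 := by
    have h1 : κ / j₁ * (64 * K) ≤ κ := by
      rw [div_mul_eq_mul_div, div_le_iff₀ (by linarith)]
      gcongr
      linarith
    rw [hMdef]
    nlinarith
  have hsq : ∀ i k : ℕ, 1 ≤ k → M / ((j₁ + k * i : ℕ) : ℝ) ^ 2 ≤ M / ((i : ℝ) + 1) ^ 2 := by
    intro i k hk
    have hki : (i : ℝ) ≤ (k : ℝ) * i := by
      have : i ≤ k * i := Nat.le_mul_of_pos_left i (by omega)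
      exact_mod_cast this
    have : (i : ℝ) + 1 ≤ ((j₁ + k * i : ℕ) : ℝ) := by
      push_cast
      linarith
    gcongr
  have fin : ∀ f : ℕ → ℝ, (∀ i, 0 ≤ f i) → (∀ i : ℕ, f i ≤ M / ((i : ℝ) + 1) ^ 2) →
      Summable f ∧ ∑' i, f i ≤ κ / 16 := by
    intro f h0 h
    obtain ⟨h1, h2⟩ := sum_bd f M hM0 h0 h
    exact ⟨h1, le_trans h2 hM⟩
  have hbe : ∀ i, 1 ≤ be Q j' (fun i => b (j₁ + i)) i := fun i => hvge (j₁ + i) (by omega)
  have hbm : ∀ i, 0 ≤ be Q j' (fun i => b (j₁ + i)) (i + 1) - be Q j' (fun i => b (j₁ + i)) i := by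
    intro i
    have := (hvmono (j₁ + i) (by omega) 1).1
    exact sub_nonneg.mpr this
  have hbg : ∀ g, 0 ≤ be Q j' (fun i => b (j₁ + i)) (m * (g + 1)) - be Q j' (fun i => b (j₁ + i)) (m * g) := by
    intro g
    have h := (hvmono (j₁ + m * g) (by omega) m).1
    have e : j₁ + m * (g + 1) = j₁ + m * g + m := by ring
    have h2 : be Q j' (fun i => b (j₁ + i)) (m * (g + 1)) = vv Q j' (b (j₁ + m * g + m)) := by
      show vv Q j' (b (j₁ + m * (g + 1))) = _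
      rw [e]
    rw [h2]
    exact sub_nonneg.mpr h
  have hmm : ∀ i, 0 ≤ mm Q j' (fun i => b (j₁ + i)) i := by
    intro i
    unfold mm
    have h1 := hbe (i + 1)
    have h2 : 0 ≤ kp Q j' := hκ0
    have h3 : 0 ≤ be Q j' (fun i => b (j₁ + i)) (i + 1) := by linarith
    positivity
  refine ⟨fin _ ?_ ?_, fin _ ?_ ?_, fin _ ?_ ?_, fin _ ?_ ?_⟩
  · intro i
    unfold qA
    have := hmm i
    have := hbm i
    positivity
  · intro i
    have h := (cell 1 (Or.inl rfl) (j₁ + i) (by omega)).1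
    have h2 := hsq i 1 le_rfl
    rw [one_mul] at h2
    exact le_trans h h2
  · intro i
    unfold qB
    have := hmm i
    have := hbm i
    have h3 : 0 ≤ be Q j' (fun i => b (j₁ + i)) i := by linarith [hbe i]
    positivity
  · intro i
    have h := (cell 1 (Or.inl rfl) (j₁ + i) (by omega)).2.1
    have h2 := hsq i 1 le_rfl
    rw [one_mul] at h2
    exact le_trans h h2
  · intro g
    unfold rA
    have := hbg g
    positivity
  · intro g
    have h := (cell m (Or.inr rfl) (j₁ + m * g) (by omega)).2.2.1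
    have h2 := hsq g m hm
    have e : j₁ + m * (g + 1) = j₁ + m * g + m := by ring
    rw [← e] at h
    exact le_trans h h2
  · intro g
    unfold rB
    have := hbg g
    have h3 : 0 ≤ be Q j' (fun i => b (j₁ + i)) (m * g) := by linarith [hbe (m * g)]
    positivity
  · intro g
    have h := (cell m (Or.inr rfl) (j₁ + m * g) (by omega)).2.2.2
    have h2 := hsq g m hm
    have e : j₁ + m * (g + 1) = j₁ + m * g + m := by ring
    rw [← e] at h
    exact le_trans h h2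

end Pool.Agent.W797.PX.Sums
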